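import Pool.Agent.Helper21K9.OD.Dens
import Pool.Agent.Helper21K9.OD.Glo
import Pool.Agent.Helper21K9.OD.Uni
import Pool.Agent.Helper21K9.OD.Sm
import Pool.Agent.Helper21K9.OD.Smq
import Pool.Agent.Helper21K9.OD.Smt
import Pool.Agent.Helper21K9.OD.Reg
import Pool.Agent.Helper21K9.OD.Rep
import Pool.Agent.Helper21K9.OD.Lg
import Pool.Agent.Helper21K9.SV.Ek
import Pool.Agent.Helper21K9.SV.Eka
import Pool.Agent.Helper21K9.SV.Ekb

/-!
MP_602153_ag: for every `n ≥ 1` and every degree `d ≥ 3`, a positive proportion of the integral forms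
of degree `d` in `n + 2` variables, ordered by the maximum of the absolute values of the
coefficients, define smooth hypersurfaces of dimension `n` over the rational numbers which have
regular projective flat models over the integers.
-/

set_option autoImplicit false

open AlgebraicGeometry CategoryTheory CategoryTheory.Limits MvPolynomial

namespace Pool.Agent.Results.MP_602153_ag.PositiveProportion

/-- The exponents of the monomials of degree `d` in `n + 2` variables. -/
abbrev Exponent (n d : ℕ) : Type :=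
  ↥(Finset.finsuppAntidiag (Finset.univ : Finset (Fin (n + 2))) d)

/-- The form of degree `d` in `n + 2` variables with the integral coefficients `a`, over the
rational numbers. -/
noncomputable def form {n d : ℕ} (a : Exponent n d → ℤ) : MvPolynomial (Fin (n + 2)) ℚ :=
  ∑ m, monomial m.1 (a m : ℚ)

/-- The families of integral coefficients of absolute value at most `H`. -/
def Coefficients (n d H : ℕ) : Set (Exponent n d → ℤ) :=
  {a | ∀ m, |a m| ≤ H}

/-- The partial derivatives of `G` have no common zero (over an algebraic closure) but the origin: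
every variable has a power in the ideal they generate. -/
def IsSmooth {K : Type} [Field K] {m : ℕ} (G : MvPolynomial (Fin m) K) : Prop :=
  ∀ i, X i ∈ (Ideal.span (Set.range fun j => pderiv j G)).radical

/-- The dimensions of the local rings of `A` equal the dimensions of their cotangent spaces. -/
def HasRegularLocalRings (A : Type) [CommRing A] : Prop :=
  ∀ p : PrimeSpectrum A, ringKrullDim (Localization.AtPrime p.asIdeal) =
    (((Module.finrank (IsLocalRing.ResidueField (Localization.AtPrime p.asIdeal))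
      (IsLocalRing.CotangentSpace (Localization.AtPrime p.asIdeal)) : ℕ) : ℕ∞) : WithBot ℕ∞)

/-- The local rings of the locally Noetherian scheme `Y` are regular. -/
def IsRegularScheme (Y : Scheme.{0}) : Prop :=
  IsLocallyNoetherian Y ∧
  ∀ U : Y.affineOpens, HasRegularLocalRings (Y.presheaf.obj (Opposite.op U.1))

/-- `Y` is projective over the integers. -/
def IsProjectiveOverInt (Y : Scheme.{0}) : Prop :=
  ∃ (A : Type) (_ : CommRing A) (𝒜 : ℕ → Submodule ℤ A) (_ : GradedAlgebra 𝒜),
    (∀ a ∈ 𝒜 0, ∃ n : ℤ, (n : A) = a) ∧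
    (∃ s : Finset A, (∀ a ∈ s, a ∈ 𝒜 1) ∧ Algebra.adjoin ℤ (s : Set A) = ⊤) ∧
    Nonempty (Y ≅ Proj 𝒜)

/-- The generic fibre of `Y` is isomorphic to `V`. -/
def HasGenericFibre (Y V : Scheme.{0}) : Prop :=
  Nonempty (pullback (specZIsTerminal.from Y)
      (specZIsTerminal.from (Spec (CommRingCat.of ℚ))) ≅ V)

/-- `Y` is an integral regular locally Noetherian scheme, projective and flat over the integers,
with generic fibre `V`. -/
def IsRegularProjectiveFlatModel (V Y : Scheme.{0}) : Prop :=
  IsIntegral Y ∧ IsRegularScheme Y ∧ IsProjectiveOverInt Y ∧ Flat (specZIsTerminal.from Y) ∧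
    HasGenericFibre Y V

/-- Every scheme `V` isomorphic to the hypersurface `Proj (K[X] / (G))` has a regular projective
flat model over the integers. -/
def HypersurfaceHasModel {K : Type} [Field K] {m : ℕ} (G : MvPolynomial (Fin m) K) :
    Prop :=
  ∀ (B : Type) [CommRing B] [Algebra K B]
    (π : MvPolynomial (Fin m) K →ₐ[K] B), Function.Surjective π →
    RingHom.ker π = Ideal.span {G} →
  ∀ (ℬ : ℕ → Submodule K B) [GradedAlgebra ℬ],
    (∀ d, ℬ d = (homogeneousSubmodule (Fin m) K d).map π.toLinearMap) →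
  ∀ (V : Scheme.{0}), Nonempty (V ≅ Proj ℬ) → ∃ Y, IsRegularProjectiveFlatModel V Y

theorem result (n d : ℕ) (hn : 1 ≤ n) (hd : 3 ≤ d) :
    ∃ δ : ℝ, 0 < δ ∧ ∀ᶠ H : ℕ in Filter.atTop, δ * (Coefficients n d H).ncard ≤
      {a ∈ Coefficients n d H | IsSmooth (form a) ∧ HypersurfaceHasModel (form a)}.ncard := by
  have hlg := Pool.Agent.Helper21K9.OD.lg
  have hrep := Pool.Agent.Helper21K9.OD.rep hlg
  have hreg := Pool.Agent.Helper21K9.OD.reg
  have hek := Pool.Agent.Helper21K9.SV.ek Pool.Agent.Helper21K9.SV.eka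
    Pool.Agent.Helper21K9.SV.ekb
  obtain ⟨c, hc, H₀, hH₀⟩ := Pool.Agent.Helper21K9.OD.dens hek Pool.Agent.Helper21K9.OD.uni
    Pool.Agent.Helper21K9.OD.sm Pool.Agent.Helper21K9.OD.smq n d hd
  have hbox : ∀ H : ℕ, Coefficients n d H =
      ((Pool.Agent.Helper21K9.SV.box (Exponent n d) H : Finset (Exponent n d → ℤ)) :
        Set (Exponent n d → ℤ)) := by
    intro H
    ext a
    simp only [Coefficients, Set.mem_ofPred_eq, Pool.Agent.Helper21K9.SV.box, Finset.mem_coe,
      Fintype.mem_piFinset, Finset.mem_Icc, abs_le]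
  have hcard : ∀ H : ℕ, (Coefficients n d H).ncard =
      (2 * H + 1) ^ Fintype.card (Exponent n d) := by
    intro H
    rw [hbox, Set.ncard_coe_finset, Pool.Agent.Helper21K9.SV.box, Fintype.card_piFinset]
    rw [Finset.prod_const, Finset.card_univ, Int.card_Icc]
    congr 1
    omega
  refine ⟨(c : ℝ)⁻¹, by positivity, ?_⟩
  rw [Filter.eventually_atTop]
  refine ⟨H₀, fun H hH => ?_⟩
  have h1 := hH₀ H hH
  have hsub : Pool.Agent.Helper21K9.OD.goodSet n d H ⊆
      {a ∈ Coefficients n d H | IsSmooth (form a) ∧ HypersurfaceHasModel (form a)} := by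
    rintro a ⟨ha, hsm, hgood⟩
    have hfa : map (Int.castRingHom ℚ) (Pool.Agent.Helper21K9.OD.form a) = form a := by
      rw [Pool.Agent.Helper21K9.OD.form_map]
      rfl
    rw [hfa] at hsm
    refine ⟨?_, hsm, ?_⟩
    · rw [hbox]
      exact ha
    · intro B _ _ π hπ hker ℬ _ hℬ V hV
      have hfh : (form a).IsHomogeneous d := by
        rw [← hfa]
        exact (Pool.Agent.Helper21K9.OD.form_homog a).map _
      have hloc : Pool.Agent.Helper21K9.OD.LocNice ℤ (form a) := by
        intro 𝔭 h𝔭 h0
        obtain ⟨z, hz⟩ := (IsPrincipalIdealRing.principal 𝔭).principal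
        have hz' : 𝔭 = Ideal.span {z} := hz
        have hz0 : z ≠ 0 := by
          rintro rfl
          exact h0 (by rw [hz', Ideal.span_singleton_eq_bot.2 rfl])
        have hzp : Prime z := by
          rw [← Ideal.span_singleton_prime hz0, ← hz']
          exact h𝔭
        have hp : z.natAbs.Prime := Int.prime_iff_natAbs_prime.1 hzp
        refine ⟨Pool.Agent.Helper21K9.OD.form a, 1, 1, 1, one_ne_zero, one_mul _, ?_, Or.inr ?_⟩
        · rw [algebraMap_int_eq, hfa, C_1, one_mul]
          have h2 : (fun i => ∑ j, C ((1 : Matrix (Fin (n + 2)) (Fin (n + 2)) ℚ) i j) * X j) =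
              (X : Fin (n + 2) → MvPolynomial (Fin (n + 2)) ℚ) := by
            funext i
            simp [Matrix.one_apply]
          rw [h2, aeval_X_left_apply]
        · intro s Q hQ hQC hG
          refine hgood z.natAbs hp s Q hQ ?_ hG
          intro y
          rw [hQC, hz', Ideal.mem_span_singleton, Int.natAbs_dvd]
      obtain ⟨Y, hi, hn', hr, hp, hf, hg⟩ := Pool.Agent.Helper21K9.OD.model_nice hrep hlg hreg
        Pool.Agent.Helper21K9.OD.smt hn (form a) d (by omega) hfh hsm hloc π hπ hker ℬ hℬ V hV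
      exact ⟨Y, hi, ⟨hn', hr⟩, hp, hf, hg⟩
  have hfin : {a ∈ Coefficients n d H | IsSmooth (form a) ∧
      HypersurfaceHasModel (form a)}.Finite := by
    refine Set.Finite.subset (Finset.finite_toSet (Pool.Agent.Helper21K9.SV.box _ H)) ?_
    intro a ha
    rw [← hbox]
    exact ha.1
  have h2 := Set.ncard_le_ncard hsub hfin
  have h3 : (2 * H + 1) ^ Fintype.card (Exponent n d) ≤ c *
      {a ∈ Coefficients n d H | IsSmooth (form a) ∧ HypersurfaceHasModel (form a)}.ncard :=
    h1.trans (Nat.mul_le_mul_left _ h2)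
  rw [hcard, inv_mul_le_iff₀ (by exact_mod_cast hc)]
  exact_mod_cast h3

end Pool.Agent.Results.MP_602153_ag.PositiveProportion
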