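import Pool.Agent.Helper21K9.WO.Glo
import Pool.Agent.Helper21K9.WO.Densw
import Pool.Agent.Helper21K9.WO.Uniw
import Pool.Agent.Helper21K9.WO.Smw
import Pool.Agent.Helper21K9.WO.Smqw
import Pool.Agent.Helper21K9.OD.Reg
import Pool.Agent.Helper21K9.OD.Rep
import Pool.Agent.Helper21K9.OD.Lg
import Pool.Agent.Helper21K9.SV.Ek
import Pool.Agent.Helper21K9.SV.Eka
import Pool.Agent.Helper21K9.SV.Ekb

/-!
MP_602153_ag: a positive proportion of the coverings
`w ^ m + F_1(x_0, ..., x_n) w ^ (m-1) + ... + F_m(x_0, ..., x_n) = 0` of degree `m` of the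
projective space of dimension `n`, with integral forms `F_i` of degree `i e` (hypersurfaces in the
total space of the line bundle `O(e)`), ordered by the maximum of the absolute values of the
coefficients, is smooth over the rational numbers and has a regular projective flat model over the
integers; for all `n ≥ 1`, `m ≥ 2`, `e ≥ 1` with `m e ≥ 3`. For `m = 2` these are all the double
coverings of the projective space branched along hypersurfaces of degree `2 e`.
-/

set_option autoImplicit false

open AlgebraicGeometry CategoryTheory CategoryTheory.Limits MvPolynomial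

namespace Pool.Agent.Results.MP_602153_ag.PositiveProportionOfCoverings

/-- The exponents `(a, β)` of the monomials `w ^ a x ^ β` with `a < m`, where `β` has degree
`(m - a) e`, in `n + 1` variables `x_j`. -/
abbrev Exponent (n m e : ℕ) : Type :=
  Σ a : Fin m, ↥(Finset.finsuppAntidiag (Finset.univ : Finset (Fin (n + 1))) ((m - (a : ℕ)) * e))

/-- The polynomial `w ^ m + ∑ c_(a, β) w ^ a x ^ β` over the rational numbers, with the integral
coefficients `c`. Here `w = X none` and `x_j = X (some j)`. -/
noncomputable def cover {n m e : ℕ} (c : Exponent n m e → ℤ) :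
    MvPolynomial (Option (Fin (n + 1))) ℚ :=
  X none ^ m + ∑ i : Exponent n m e,
    C (c i : ℚ) * (X none ^ (i.1 : ℕ) * rename some (monomial i.2.1 1))

/-- The families of integral coefficients of absolute value at most `H`. -/
def Coefficients (n m e H : ℕ) : Set (Exponent n m e → ℤ) :=
  {c | ∀ i, |c i| ≤ H}

/-- The weights: the variable `w = X none` has weight `e`, the variables `X (some i)` have weight
one. -/
def weight {n : ℕ} (e : ℕ) : Option (Fin n) → ℕ := fun o => o.elim e (fun _ => 1)

/-- The partial derivatives of `G` have no common zero (over an algebraic closure) but the origin: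
every variable has a power in the ideal they generate. -/
def IsSmooth {K σ : Type} [Field K] (G : MvPolynomial σ K) : Prop :=
  ∀ i, X i ∈ (Ideal.span (Set.range fun j => pderiv j G)).radical

/-- The dimensions of the local rings of `A` equal the dimensions of their cotangent spaces. -/
def HasRegularLocalRings (A : Type) [CommRing A] : Prop :=
  ∀ p : PrimeSpectrum A, ringKrullDim (Localization.AtPrime p.asIdeal) =
    (((Module.finrank (IsLocalRing.ResidueField (Localization.AtPrime p.asIdeal))
      (IsLocalRing.CotangentSpace (Localization.AtPrime p.asIdeal)) : ℕ) : ℕ∞) : WithBot ℕ∞)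

/-- The local rings of the locally Noetherian scheme `Y` are regular. -/
def IsRegularScheme (Y : Scheme.{0}) : Prop :=
  IsLocallyNoetherian Y ∧
  ∀ U : Y.affineOpens, HasRegularLocalRings (Y.presheaf.obj (Opposite.op U.1))

/-- `Y` is projective over the integers. -/
def IsProjectiveOverInt (Y : Scheme.{0}) : Prop :=
  ∃ (A : Type) (_ : CommRing A) (𝒜 : ℕ → Submodule ℤ A) (_ : GradedAlgebra 𝒜),
    (∀ a ∈ 𝒜 0, ∃ n : ℤ, (n : A) = a) ∧
    (∃ s : Finset A, (∀ a ∈ s, a ∈ 𝒜 1) ∧ Algebra.adjoin ℤ (s : Set A) = ⊤) ∧
    Nonempty (Y ≅ Proj 𝒜)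

/-- The generic fibre of `Y` is isomorphic to `V`. -/
def HasGenericFibre (Y V : Scheme.{0}) : Prop :=
  Nonempty (pullback (specZIsTerminal.from Y)
      (specZIsTerminal.from (Spec (CommRingCat.of ℚ))) ≅ V)

/-- `Y` is an integral regular locally Noetherian scheme, projective and flat over the integers,
with generic fibre `V`. -/
def IsRegularProjectiveFlatModel (V Y : Scheme.{0}) : Prop :=
  IsIntegral Y ∧ IsRegularScheme Y ∧ IsProjectiveOverInt Y ∧ Flat (specZIsTerminal.from Y) ∧
    HasGenericFibre Y V

/-- Every scheme `V` isomorphic to the weighted hypersurface `P = 0` has a regular projective flat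
model over the integers. Here the weighted hypersurface is `Proj` of the graded ring `ℬ` whose part
of degree `d` is the part of weight `d e` of `K[x, w] / (P)` (by `j`, which identifies the ring with
a subring of `K[x, w] / (P)`). -/
def CoverHasModel {K : Type} [Field K] {n : ℕ} (e : ℕ) (P : MvPolynomial (Option (Fin n)) K) :
    Prop :=
  ∀ (B : Type) [CommRing B] [Algebra K B]
    (j : B →ₐ[K] (MvPolynomial (Option (Fin n)) K ⧸ Ideal.span {P})), Function.Injective j →
  ∀ (ℬ : ℕ → Submodule K B) [GradedAlgebra ℬ],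
    (∀ d, (ℬ d).map j.toLinearMap = (weightedHomogeneousSubmodule K (weight e) (d * e)).map
      (Ideal.Quotient.mkₐ K (Ideal.span {P})).toLinearMap) →
  ∀ (V : Scheme.{0}), Nonempty (V ≅ Proj ℬ) → ∃ Y, IsRegularProjectiveFlatModel V Y

theorem result (n m e : ℕ) (hn : 1 ≤ n) (hm : 2 ≤ m) (he : 1 ≤ e) (hme : 3 ≤ m * e) :
    ∃ δ : ℝ, 0 < δ ∧ ∀ᶠ H : ℕ in Filter.atTop, δ * (Coefficients n m e H).ncard ≤
      {c ∈ Coefficients n m e H | IsSmooth (cover c) ∧ CoverHasModel e (cover c)}.ncard := by
  have hlg := Pool.Agent.Helper21K9.OD.lg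
  have hrep := Pool.Agent.Helper21K9.OD.rep hlg
  have hreg := Pool.Agent.Helper21K9.OD.reg
  have hek := Pool.Agent.Helper21K9.SV.ek Pool.Agent.Helper21K9.SV.eka
    Pool.Agent.Helper21K9.SV.ekb
  obtain ⟨c, hc, H₀, hH₀⟩ := Pool.Agent.Helper21K9.WO.densw hek Pool.Agent.Helper21K9.WO.uniw
    Pool.Agent.Helper21K9.WO.smw Pool.Agent.Helper21K9.WO.smqw
    n m e hn hm he hme
  have hbox : ∀ H : ℕ, Coefficients n m e H =
      ((Pool.Agent.Helper21K9.SV.box (Exponent n m e) H : Finset (Exponent n m e → ℤ)) :
        Set (Exponent n m e → ℤ)) := by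
    intro H
    ext a
    simp only [Coefficients, Set.mem_ofPred_eq, Pool.Agent.Helper21K9.SV.box, Finset.mem_coe,
      Fintype.mem_piFinset, Finset.mem_Icc, abs_le]
  have hcard : ∀ H : ℕ, (Coefficients n m e H).ncard =
      (2 * H + 1) ^ Fintype.card (Exponent n m e) := by
    intro H
    rw [hbox, Set.ncard_coe_finset, Pool.Agent.Helper21K9.SV.box, Fintype.card_piFinset]
    rw [Finset.prod_const, Finset.card_univ, Int.card_Icc]
    congr 1
    omega
  refine ⟨(c : ℝ)⁻¹, by positivity, ?_⟩
  rw [Filter.eventually_atTop]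
  refine ⟨H₀, fun H hH => ?_⟩
  have h1 := hH₀ H hH
  have hsub : Pool.Agent.Helper21K9.WO.goodSetW n m e H ⊆
      {c ∈ Coefficients n m e H | IsSmooth (cover c) ∧ CoverHasModel e (cover c)} := by
    rintro a ⟨ha, hsm, hgood⟩
    have hfa : map (Int.castRingHom ℚ) (Pool.Agent.Helper21K9.WO.wform a) = cover a := by
      rw [Pool.Agent.Helper21K9.WO.wform_map]
      rfl
    have hwh : (cover a).IsWeightedHomogeneous (weight e) (m * e) := by
      rw [← hfa]
      exact Pool.Agent.R187.WC.whom_map _ (Pool.Agent.Helper21K9.WO.wform_whom a)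
    have hco : coeff (Finsupp.single none m) (cover a) ≠ 0 := by
      rw [← hfa, coeff_map, Pool.Agent.Helper21K9.WO.wform_coeff, map_one]
      exact one_ne_zero
    have hsm' : Pool.Agent.R187.WC.SmoothW (cover a) := by
      rw [← hfa]
      exact hsm
    refine ⟨?_, ?_, ?_⟩
    · rw [hbox]
      exact ha
    · intro i
      rcases i with _ | i
      · refine Pool.Agent.R187.WC.none_mem_radical e m he (by omega) (cover a) hwh hco _ ?_ hsm'
        have h2 := hwh.sum_weight_X_mul_pderiv
        have h3 : (m * e) • cover a ∈ Ideal.span (Set.range fun j => pderiv j (cover a)) := by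
          rw [← h2]
          refine Ideal.sum_mem _ fun j _ => ?_
          refine Submodule.smul_of_tower_mem _ _ (Ideal.mul_mem_left _ _ ?_)
          exact Ideal.subset_span ⟨j, rfl⟩
        have h4 : cover a = C ((m * e : ℕ) : ℚ)⁻¹ * ((m * e) • cover a) := by
          rw [nsmul_eq_mul, ← mul_assoc, ← map_natCast (C : ℚ →+* MvPolynomial _ ℚ), ← C_mul,
            inv_mul_cancel₀, C_1, one_mul]
          have : 0 < m * e := by omega
          positivity
        have h5 := Ideal.mul_mem_left _ (C ((m * e : ℕ) : ℚ)⁻¹) h3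
        rw [← h4] at h5
        exact h5
      · exact hsm' i
    · intro B _ _ j hj ℬ _ hℬ V hV
      have hloc : Pool.Agent.Helper21K9.WO.LocNiceW ℤ e m (cover a) := by
        intro 𝔭 h𝔭 h0
        obtain ⟨z, hz⟩ := (IsPrincipalIdealRing.principal 𝔭).principal
        have hz' : 𝔭 = Ideal.span {z} := hz
        have hz0 : z ≠ 0 := by
          rintro rfl
          exact h0 (by rw [hz', Ideal.span_singleton_eq_bot.2 rfl])
        have hzp : Prime z := by
          rw [← Ideal.span_singleton_prime hz0, ← hz']
          exact h𝔭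
        have hp : z.natAbs.Prime := Int.prime_iff_natAbs_prime.1 hzp
        refine ⟨Pool.Agent.Helper21K9.WO.wform a, 1, 1, 1, 1, 0, one_ne_zero, one_mul _,
          isHomogeneous_zero _ _ _, ?_, Pool.Agent.Helper21K9.WO.wform_whom a, ?_, Or.inr ⟨?_, ?_⟩⟩
        · rw [algebraMap_int_eq, hfa, C_1, one_mul]
          have h2 : Pool.Agent.R187.WC.subW (1 : Matrix (Fin (n + 1)) (Fin (n + 1)) ℚ) 1 0 =
              (X : Option (Fin (n + 1)) → MvPolynomial (Option (Fin (n + 1))) ℚ) := by
            funext i
            rcases i with _ | i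
            · simp [Pool.Agent.R187.WC.subW]
            · simp [Pool.Agent.R187.WC.subW, Matrix.one_apply]
          rw [h2, aeval_X_left_apply]
        · rw [Pool.Agent.Helper21K9.WO.wform_coeff]
          exact (Ideal.ne_top_iff_one 𝔭).1 h𝔭.ne_top
        · intro s Q hQ hQC hG
          refine hgood z.natAbs hp s Q hQ ?_ hG
          intro y
          rw [hQC, hz', Ideal.mem_span_singleton, Int.natAbs_dvd]
        · exact hsm
      obtain ⟨Y, hi, hn', hr, hp, hf, hg⟩ := Pool.Agent.Helper21K9.WO.model_niceW hrep hlg hreg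
        (O := ℤ) hn e m he (by omega) (cover a) hwh hco hsm' hloc j hj ℬ hℬ V hV
      exact ⟨Y, hi, ⟨hn', hr⟩, hp, hf, hg⟩
  have hfin : {c ∈ Coefficients n m e H | IsSmooth (cover c) ∧
      CoverHasModel e (cover c)}.Finite := by
    refine Set.Finite.subset (Finset.finite_toSet (Pool.Agent.Helper21K9.SV.box _ H)) ?_
    intro a ha
    rw [← hbox]
    exact ha.1
  have h2 := Set.ncard_le_ncard hsub hfin
  have h3 : (2 * H + 1) ^ Fintype.card (Exponent n m e) ≤ c *
      {c ∈ Coefficients n m e H | IsSmooth (cover c) ∧ CoverHasModel e (cover c)}.ncard :=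
    h1.trans (Nat.mul_le_mul_left _ h2)
  rw [hcard, inv_mul_le_iff₀ (by exact_mod_cast hc)]
  exact_mod_cast h3

end Pool.Agent.Results.MP_602153_ag.PositiveProportionOfCoverings
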