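import Pool.Agent.Helper21K9.OD.Glo2
import Pool.Agent.Helper21K9.OD.Smt
import Pool.Agent.Helper21K9.OD.Reg
import Pool.Agent.Helper21K9.OD.Rep
import Pool.Agent.Helper21K9.OD.Lg
import Pool.Agent.Helper21K9.OD.Mix

/-!
MP_602153_ag: a smooth projective hypersurface over a number field, of any dimension and degree, has
a regular projective flat model over the integers if over each prime it has, in suitable coordinates,
an integral equation whose non-regular points are nondegenerate quadratic singularities of the
fibre. At these points the equation is `h(y) + π ^ k` up to units, with a nondegenerate quadratic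
form `h` in local coordinates `y` and any `k`.
-/

set_option autoImplicit false

open AlgebraicGeometry CategoryTheory CategoryTheory.Limits MvPolynomial

open scoped NumberField

namespace Pool.Agent.Results.MP_602153_ag.QuadraticSingularities

/-- The polynomial in the variables `X j`, `j ≠ s`, obtained from `H` by setting `X s = 1`: the
equation of the hypersurface `H = 0` in the chart `X s ≠ 0` of the projective space over `R`. -/
noncomputable def dehom {R : Type} [CommRing R] {m : ℕ} (s : Fin m) (H : MvPolynomial (Fin m) R) :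
    MvPolynomial {j : Fin m // j ≠ s} R :=
  aeval (fun j => if h : j = s then 1 else X ⟨j, h⟩) H

/-- The ideal `Q` of the polynomial ring over `R` lies over `𝔭`. -/
def LiesAbove {R σ : Type} [CommRing R] (𝔭 : Ideal R) (Q : Ideal (MvPolynomial σ R)) : Prop :=
  ∀ r : R, C r ∈ Q ↔ r ∈ 𝔭

/-- For a prime `Q` of `A`, the element `f` is not in the square of the maximal ideal of the
localization of `A` at `Q`. -/
def NotInSquare {A : Type} [CommRing A] (Q : Ideal A) (f : A) : Prop :=
  ∀ h, h ∉ Q → h * f ∉ Q ^ 2

/-- The determinant of the matrix of the second partial derivatives. -/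
noncomputable def hessian {R σ : Type} [CommRing R] [Fintype σ] [DecidableEq σ]
    (f : MvPolynomial σ R) : MvPolynomial σ R :=
  (Matrix.of fun i j => pderiv i (pderiv j f)).det

/-- Over `𝔭` the points of the scheme `H = 0` in the projective space over `R` are regular or
nondegenerate quadratic singularities of the fibre: for every chart `s` and every prime `Q` of the
polynomial ring of the chart lying over `𝔭` and containing the equation, the equation is not in the
square of the maximal ideal of the localization at `Q`, or its Hessian determinant is not in `Q`. -/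
def IsRegularOrQuadratic {R : Type} [CommRing R] (𝔭 : Ideal R) {m : ℕ}
    (H : MvPolynomial (Fin m) R) : Prop :=
  ∀ (s : Fin m) (Q : Ideal (MvPolynomial {j : Fin m // j ≠ s} R)), Q.IsPrime →
    LiesAbove 𝔭 Q → dehom s H ∈ Q → NotInSquare Q (dehom s H) ∨ hessian (dehom s H) ∉ Q

/-- The partial derivatives of `G` have no common zero (over an algebraic closure) but the origin:
every variable has a power in the ideal they generate. -/
def IsSmooth {K : Type} [Field K] {m : ℕ} (G : MvPolynomial (Fin m) K) : Prop :=
  ∀ i, X i ∈ (Ideal.span (Set.range fun j => pderiv j G)).radical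

/-- `H` is obtained from `G` by the linear change of coordinates `T` and multiplication with the
scalar `l`. -/
def IsEquation {R K : Type} [CommRing R] [Field K] [Algebra R K] {m : ℕ}
    (G : MvPolynomial (Fin m) K) (H : MvPolynomial (Fin m) R) (l : K)
    (T : Matrix (Fin m) (Fin m) K) : Prop :=
  map (algebraMap R K) H = C l * aeval (fun i => ∑ j, C (T i j) * X j) G

/-- For every prime `𝔭` a linear change of coordinates over the number field and a scalar turn `G`
into a form with integral coefficients whose hypersurface has over `𝔭` only regular points and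
nondegenerate quadratic singularities of the fibre. -/
def HasQuadraticEquations {K : Type} [Field K] {m : ℕ} (G : MvPolynomial (Fin m) K) : Prop :=
  ∀ 𝔭 : Ideal (𝓞 K), 𝔭.IsPrime → 𝔭 ≠ ⊥ →
    ∃ (H : MvPolynomial (Fin m) (𝓞 K)) (l : K) (T T' : Matrix (Fin m) (Fin m) K),
      l ≠ 0 ∧ T * T' = 1 ∧ IsEquation G H l T ∧ IsRegularOrQuadratic 𝔭 H

/-- The dimensions of the local rings of `A` equal the dimensions of their cotangent spaces. -/
def HasRegularLocalRings (A : Type) [CommRing A] : Prop :=
  ∀ p : PrimeSpectrum A, ringKrullDim (Localization.AtPrime p.asIdeal) =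
    (((Module.finrank (IsLocalRing.ResidueField (Localization.AtPrime p.asIdeal))
      (IsLocalRing.CotangentSpace (Localization.AtPrime p.asIdeal)) : ℕ) : ℕ∞) : WithBot ℕ∞)

/-- The local rings of the locally Noetherian scheme `Y` are regular. -/
def IsRegularScheme (Y : Scheme.{0}) : Prop :=
  IsLocallyNoetherian Y ∧
  ∀ U : Y.affineOpens, HasRegularLocalRings (Y.presheaf.obj (Opposite.op U.1))

/-- `Y` is projective over the integers. -/
def IsProjectiveOverInt (Y : Scheme.{0}) : Prop :=
  ∃ (A : Type) (_ : CommRing A) (𝒜 : ℕ → Submodule ℤ A) (_ : GradedAlgebra 𝒜),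
    (∀ a ∈ 𝒜 0, ∃ n : ℤ, (n : A) = a) ∧
    (∃ s : Finset A, (∀ a ∈ s, a ∈ 𝒜 1) ∧ Algebra.adjoin ℤ (s : Set A) = ⊤) ∧
    Nonempty (Y ≅ Proj 𝒜)

/-- The generic fibre of `Y` is isomorphic to `V`. -/
def HasGenericFibre (Y V : Scheme.{0}) : Prop :=
  Nonempty (pullback (specZIsTerminal.from Y)
      (specZIsTerminal.from (Spec (CommRingCat.of ℚ))) ≅ V)

/-- `Y` is an integral regular locally Noetherian scheme, projective and flat over the integers,
with generic fibre `V`. -/
def IsRegularProjectiveFlatModel (V Y : Scheme.{0}) : Prop :=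
  IsIntegral Y ∧ IsRegularScheme Y ∧ IsProjectiveOverInt Y ∧ Flat (specZIsTerminal.from Y) ∧
    HasGenericFibre Y V

/-- Every scheme `V` isomorphic to the hypersurface `Proj (K[X] / (G))`, viewed over the rational
numbers, has a regular projective flat model over the integers. -/
def HypersurfaceHasModel {K : Type} [Field K] {m : ℕ} (G : MvPolynomial (Fin m) K) :
    Prop :=
  ∀ (B : Type) [CommRing B] [Algebra K B]
    (π : MvPolynomial (Fin m) K →ₐ[K] B), Function.Surjective π →
    RingHom.ker π = Ideal.span {G} →
  ∀ (ℬ : ℕ → Submodule K B) [GradedAlgebra ℬ],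
    (∀ d, ℬ d = (homogeneousSubmodule (Fin m) K d).map π.toLinearMap) →
  ∀ (V : Scheme.{0}), Nonempty (V ≅ Proj ℬ) → ∃ Y, IsRegularProjectiveFlatModel V Y

theorem result (K : Type) [Field K] [NumberField K] (n d : ℕ) (hd : 2 ≤ d)
    (G : MvPolynomial (Fin (n + 3)) K) (hG : G.IsHomogeneous d) (hsm : IsSmooth G)
    (hloc : HasQuadraticEquations G) : HypersurfaceHasModel G := by
  intro B _ _ π hπ hker ℬ _ hℬ V hV
  have hlg := Pool.Agent.Helper21K9.OD.lg
  have hloc' : Pool.Agent.Helper21K9.OD.LocMix (𝓞 K) G := by
    intro 𝔭 hp h0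
    obtain ⟨H, l, T, T', hl, hT, hH, hnice⟩ := hloc 𝔭 hp h0
    exact ⟨H, l, T, T', hl, hT, hH, fun s Q hQ hC hs => hnice s Q hQ hC hs⟩
  obtain ⟨Y, hi, hn, hr, hp, hf, hg⟩ :=
    Pool.Agent.Helper21K9.OD.model_mix (O := 𝓞 K) (Pool.Agent.Helper21K9.OD.rep hlg) hlg
      Pool.Agent.Helper21K9.OD.reg Pool.Agent.Helper21K9.OD.smt Pool.Agent.Helper21K9.OD.mix
      (n := n + 1) (by omega) G d hd hG hsm hloc' π hπ hker ℬ hℬ V hV
  exact ⟨Y, hi, ⟨hn, hr⟩, hp, hf, hg⟩

end Pool.Agent.Results.MP_602153_ag.QuadraticSingularities
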